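import Pool.Agent.Q203.ZV.MA
import Pool.Agent.Y801.Z5S.Fin

/-!
# The irrationality exponent of `ζ(5)` is at most `61`
-/

open Pool.Agent.H337R2

namespace Pool.Agent.Q203.ZV

noncomputable section

set_option autoImplicit false

theorem measure61 : ∃ c : ℝ, 0 < c ∧ ∀ (a : ℤ) (b : ℕ), 0 < b → c / (b : ℝ) ^ 61 ≤ |zr 5 - (a : ℝ) / b| :=
  measure_of2 Pool.Agent.Y801.Z5S.archB (K := 3133 / 10000) (by norm_num) (by norm_num) (by norm_num) (by norm_num)

/-- linear forms in `1, ζ(5)` -/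
theorem forms60 : ∃ c : ℝ, 0 < c ∧ ∀ a b : ℤ, b ≠ 0 → c / |(b : ℝ)| ^ 60 ≤ |a + b * zr 5| := by
  obtain ⟨c, hc, h⟩ := measure61
  refine ⟨c, hc, fun a b hb => ?_⟩
  have hbn : 0 < b.natAbs := Int.natAbs_pos.2 hb
  have hbR : (0 : ℝ) < |(b : ℝ)| := abs_pos.2 (by exact_mod_cast hb)
  have e0 : ((b.natAbs : ℕ) : ℝ) = |(b : ℝ)| := by
    rw [Nat.cast_natAbs]
    push_cast
    rfl
  have h1 := h (-(a * b.sign)) b.natAbs hbn
  rw [e0] at h1
  have e1 : |(b : ℝ)| * abs (zr 5 - ((-(a * b.sign) : ℤ) : ℝ) / |(b : ℝ)|) = |a + b * zr 5| := by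
    rw [← abs_of_pos hbR, abs_abs, ← abs_mul]
    rcases lt_or_gt_of_ne hb with h2 | h2
    · have h3 : (b : ℝ) < 0 := by exact_mod_cast h2
      rw [Int.sign_eq_neg_one_of_neg h2, abs_of_neg h3]
      push_cast
      congr 1
      field_simp
      ring
    · have h3 : (0 : ℝ) < b := by exact_mod_cast h2
      rw [Int.sign_eq_one_of_pos h2, abs_of_pos h3]
      push_cast
      congr 1
      field_simp
      ring
  rw [← e1]
  have h2 := mul_le_mul_of_nonneg_left h1 hbR.le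
  refine le_trans (le_of_eq ?_) h2
  rw [pow_succ]
  field_simp

end

end Pool.Agent.Q203.ZV
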