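import Pool.Agent.Q203.ZV.PL

/-!
# The numerical value of the limits, with integer arithmetic
-/

namespace Pool.Agent.Q203.ZV

set_option autoImplicit false

open Pool.Agent.H336R2.Z5

/-- the terms of the sums, times `4 * 10 ^ 4 * j` and with `lo = 1/100`: `20000 j * It α j (1/100) hi`
if `α / j ≤ hi`, and `α hi' ...` otherwise -/
def tI (α j hi : ℕ) : ℤ :=
  if hi * j ≤ α then 20000 * (j : ℤ) * α * hi - 200 * j * α - 10000 * (j : ℤ) ^ 2 * hi ^ 2 + j ^ 2
  else if j ≤ 100 * α then 10000 * (α : ℤ) ^ 2 - 200 * j * α + j ^ 2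
  else 0

lemma tI_eq (α j hi : ℕ) (hj : 1 ≤ j) (hhi : 1 ≤ hi) :
    20000 * (j : ℚ) * It α j (1 / 100) hi = tI α j hi := by
  have hj0 : (0 : ℚ) < j := by exact_mod_cast hj
  have hhi0 : (1 : ℚ) ≤ hi := by exact_mod_cast hhi
  unfold It tI
  split_ifs with h1 h2
  · have h3 : (hi : ℚ) ≤ (α : ℚ) / j := by
      rw [le_div_iff₀ hj0]
      exact_mod_cast h1
    rw [min_eq_left h3, max_eq_right (by linarith)]
    push_cast
    ring
  · have h3 : (α : ℚ) / j ≤ hi := by
      rw [div_le_iff₀ hj0]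
      push Not at h1
      exact_mod_cast h1.le
    have h4 : (1 / 100 : ℚ) ≤ (α : ℚ) / j := by
      rw [div_le_div_iff₀ (by norm_num) hj0]
      have : (j : ℚ) ≤ 100 * α := by exact_mod_cast h2
      linarith
    rw [min_eq_right h3, max_eq_right h4]
    push_cast
    field_simp
    ring
  · have h4 : (α : ℚ) / j ≤ 1 / 100 := by
      rw [div_le_div_iff₀ hj0 (by norm_num)]
      push Not at h2
      have : (100 : ℚ) * α < j := by exact_mod_cast h2
      linarith
    rw [max_eq_left ((min_le_right _ _).trans h4)]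
    push_cast
    ring

/-- `100 j * (max lo (min 12 (α / j)) - lo)` -/
def fI (α j : ℕ) : ℤ :=
  if 12 * j ≤ α then 1199 * (j : ℤ)
  else if j ≤ 100 * α then 100 * (α : ℤ) - j
  else 0

lemma fI_eq (α j : ℕ) (hj : 1 ≤ j) :
    100 * (j : ℚ) * (max (1 / 100) (min 12 ((α : ℚ) / j)) - 1 / 100) = fI α j := by
  have hj0 : (0 : ℚ) < j := by exact_mod_cast hj
  unfold fI
  split_ifs with h1 h2
  · have h3 : (12 : ℚ) ≤ (α : ℚ) / j := by
      rw [le_div_iff₀ hj0]
      exact_mod_cast h1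
    rw [min_eq_left h3, max_eq_right (by linarith)]
    push_cast
    ring
  · have h3 : (α : ℚ) / j ≤ 12 := by
      rw [div_le_iff₀ hj0]
      push Not at h1
      exact_mod_cast h1.le
    have h4 : (1 / 100 : ℚ) ≤ (α : ℚ) / j := by
      rw [div_le_div_iff₀ (by norm_num) hj0]
      have : (j : ℚ) ≤ 100 * α := by exact_mod_cast h2
      linarith
    rw [min_eq_right h3, max_eq_right h4]
    push_cast
    field_simp
  · have h4 : (α : ℚ) / j ≤ 1 / 100 := by
      rw [div_le_div_iff₀ hj0 (by norm_num)]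
      push Not at h2
      have : (100 : ℚ) * α < j := by exact_mod_cast h2
      linarith
    rw [max_eq_left ((min_le_right _ _).trans h4)]
    push_cast
    ring

/-- the whole term -/
def tm (j : ℕ) : ℚ :=
  (It 18 j (1 / 100) 12 + 2 * It 17 j (1 / 100) 12 + 3 * It 16 j (1 / 100) 12 + 2 * It 15 j (1 / 100) 12
    + It 14 j (1 / 100) 12 - 4 * It 1 j (1 / 100) 12 - 3 * It 2 j (1 / 100) 12) + It 46 j (1 / 100) 46 -
  46 * ((max (1 / 100) (min 12 (((18 : ℕ) : ℚ) / j)) - 1 / 100) + (max (1 / 100) (min 12 (((16 : ℕ) : ℚ) / j)) - 1 / 100) +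
    (max (1 / 100) (min 12 (((14 : ℕ) : ℚ) / j)) - 1 / 100))

/-- the whole term, times `20000 j` -/
def tmI (j : ℕ) : ℤ :=
  tI 18 j 12 + 2 * tI 17 j 12 + 3 * tI 16 j 12 + 2 * tI 15 j 12 + tI 14 j 12 - 4 * tI 1 j 12 - 3 * tI 2 j 12 +
    tI 46 j 46 - 9200 * (fI 18 j + fI 16 j + fI 14 j)

lemma tm_eq (j : ℕ) (hj : 1 ≤ j) : 20000 * (j : ℚ) * tm j = tmI j := by
  unfold tm tmI
  have e : ∀ α hi : ℕ, 1 ≤ hi → 20000 * (j : ℚ) * It α j (1 / 100) hi = tI α j hi := fun α hi h => tI_eq α j hi hj h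
  have h18 := e 18 12 (by norm_num)
  have h17 := e 17 12 (by norm_num)
  have h16 := e 16 12 (by norm_num)
  have h15 := e 15 12 (by norm_num)
  have h14 := e 14 12 (by norm_num)
  have h1 := e 1 12 (by norm_num)
  have h2 := e 2 12 (by norm_num)
  have h46 := e 46 46 (by norm_num)
  have g18 := fI_eq 18 j hj
  have g16 := fI_eq 16 j hj
  have g14 := fI_eq 14 j hj
  push_cast at h18 h17 h16 h15 h14 h1 h2 h46 g18 g16 g14 ⊢
  rw [← h18, ← h17, ← h16, ← h15, ← h14, ← h1, ← h2, ← h46, ← g18, ← g16, ← g14]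
  ring

/-- sum of the terms, rounded up to multiples of `10 ^ (-9)` -/
def sumI : ℕ → ℤ
  | 0 => 0
  | j + 1 => sumI j + (tmI (j + 1) * 1000000000 / (20000 * ((j : ℤ) + 1)) + 1)

lemma sumI_spec (N : ℕ) : (∑ j ∈ Finset.Icc 1 N, tm j) * 1000000000 ≤ sumI N := by
  induction N with
  | zero => simp [sumI]
  | succ k ih =>
    rw [Finset.sum_Icc_succ_top (by omega), add_mul]
    have h1 := tm_eq (k + 1) (by omega)
    have hk : (0 : ℤ) < 20000 * ((k : ℤ) + 1) := by positivity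
    have h2 : tmI (k + 1) * 1000000000 < (tmI (k + 1) * 1000000000 / (20000 * ((k : ℤ) + 1)) + 1) * (20000 * ((k : ℤ) + 1)) :=
      Int.lt_ediv_add_one_mul_self _ hk
    have h3 : ((tmI (k + 1) : ℤ) : ℚ) * 1000000000 <
        (((tmI (k + 1) * 1000000000 / (20000 * ((k : ℤ) + 1)) + 1 : ℤ)) : ℚ) * (20000 * ((k : ℚ) + 1)) := by
      exact_mod_cast h2
    have hk0 : (0 : ℚ) < 20000 * ((k : ℚ) + 1) := by positivity
    rw [← h1] at h3
    have h4 : tm (k + 1) * 1000000000 ≤ (((tmI (k + 1) * 1000000000 / (20000 * ((k : ℤ) + 1)) + 1 : ℤ)) : ℚ) := by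
      push_cast at h3 ⊢
      nlinarith
    have h5 : ((sumI (k + 1) : ℤ) : ℚ) = (sumI k : ℚ) +
        (((tmI (k + 1) * 1000000000 / (20000 * ((k : ℤ) + 1)) + 1 : ℤ)) : ℚ) := by
      rw [sumI]
      push_cast
      ring
    rw [h5]
    linarith

/-- the same with an accumulator -/
def accI : ℕ → ℕ → ℤ → ℤ
  | 0, _, a => a
  | c + 1, j, a => accI c (j + 1) (a + (tmI (j + 1) * 1000000000 / (20000 * ((j : ℤ) + 1)) + 1))

lemma accI_eq (c : ℕ) : ∀ (j : ℕ) (a : ℤ), accI c j a = a + (sumI (j + c) - sumI j) := by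
  induction c with
  | zero => intro j a; simp [accI]
  | succ c ih =>
    intro j a
    rw [accI, ih]
    have e1 : j + 1 + c = j + (c + 1) := by ring
    rw [e1]
    have e2 : sumI (j + 1) = sumI j + (tmI (j + 1) * 1000000000 / (20000 * ((j : ℤ) + 1)) + 1) := rfl
    rw [e2]
    ring

/-- the terms `230 k < j ≤ 230 (k + 1)` -/
def chunk (k : ℕ) : ℤ := accI 230 (230 * k) 0

lemma chunk_eq (k : ℕ) : chunk k = sumI (230 * (k + 1)) - sumI (230 * k) := by
  unfold chunk
  rw [accI_eq, zero_add]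
  congr 2

lemma ch0 : chunk 0 ≤ 382154297938 := by decide +kernel

lemma ch1 : chunk 1 ≤ -74331008637 := by decide +kernel

lemma ch2 : chunk 2 ≤ -50176675815 := by decide +kernel

lemma ch3 : chunk 3 ≤ -24667491966 := by decide +kernel

lemma ch4 : chunk 4 ≤ 1266779243 := by decide +kernel

lemma ch5 : chunk 5 ≤ 27390493018 := by decide +kernel

lemma ch6 : chunk 6 ≤ 46847935582 := by decide +kernel

lemma ch7 : chunk 7 ≤ 50423158692 := by decide +kernel

lemma ch8 : chunk 8 ≤ 41270762863 := by decide +kernel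

lemma ch9 : chunk 9 ≤ 30779124035 := by decide +kernel

lemma ch10 : chunk 10 ≤ 22795514152 := by decide +kernel

lemma ch11 : chunk 11 ≤ 16663864934 := by decide +kernel

lemma ch12 : chunk 12 ≤ 11938692960 := by decide +kernel

lemma ch13 : chunk 13 ≤ 8306848656 := by decide +kernel

lemma ch14 : chunk 14 ≤ 5541756860 := by decide +kernel

lemma ch15 : chunk 15 ≤ 3475423044 := by decide +kernel

lemma ch16 : chunk 16 ≤ 1980644867 := by decide +kernel

lemma ch17 : chunk 17 ≤ 959336246 := by decide +kernel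

lemma ch18 : chunk 18 ≤ 334645597 := by decide +kernel

lemma ch19 : chunk 19 ≤ 45503398 := by decide +kernel

lemma sum_all : sumI 4600 ≤ 502999605667 := by
  have h0 : sumI 0 = 0 := rfl
  have c0 := ch0
  rw [chunk_eq] at c0
  have c1 := ch1
  rw [chunk_eq] at c1
  have c2 := ch2
  rw [chunk_eq] at c2
  have c3 := ch3
  rw [chunk_eq] at c3
  have c4 := ch4
  rw [chunk_eq] at c4
  have c5 := ch5
  rw [chunk_eq] at c5
  have c6 := ch6
  rw [chunk_eq] at c6
  have c7 := ch7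
  rw [chunk_eq] at c7
  have c8 := ch8
  rw [chunk_eq] at c8
  have c9 := ch9
  rw [chunk_eq] at c9
  have c10 := ch10
  rw [chunk_eq] at c10
  have c11 := ch11
  rw [chunk_eq] at c11
  have c12 := ch12
  rw [chunk_eq] at c12
  have c13 := ch13
  rw [chunk_eq] at c13
  have c14 := ch14
  rw [chunk_eq] at c14
  have c15 := ch15
  rw [chunk_eq] at c15
  have c16 := ch16
  rw [chunk_eq] at c16
  have c17 := ch17
  rw [chunk_eq] at c17
  have c18 := ch18
  rw [chunk_eq] at c18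
  have c19 := ch19
  rw [chunk_eq] at c19
  norm_num at c0 c1 c2 c3 c4 c5 c6 c7 c8 c9 c10 c11 c12 c13 c14 c15 c16 c17 c18 c19
  linarith

lemma LB_eq : LB ≤ 2483334 / 10000 := by decide +kernel

lemma sum_split (s : Finset ℕ) (f g a b c : ℕ → ℚ) :
    ∑ j ∈ s, (f j + g j - 46 * (a j + b j + c j)) =
      ∑ j ∈ s, f j + ∑ j ∈ s, g j - 46 * (∑ j ∈ s, a j + ∑ j ∈ s, b j + ∑ j ∈ s, c j) := by
  rw [Finset.sum_sub_distrib, ← Finset.mul_sum, Finset.sum_add_distrib, Finset.sum_add_distrib,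
    Finset.sum_add_distrib]

theorem numeric2 : LA2 + LB + LU2 ≤ 18304400 / 10000 := by
  have h1 : LA2 + LU2 = 90 * (12 - 1 / 100) + ∑ j ∈ Finset.Icc 1 4600, tm j := by
    have e := sum_split (Finset.Icc 1 4600) (fun j : ℕ =>
      (It 18 j (1 / 100) 12 + 2 * It 17 j (1 / 100) 12 + 3 * It 16 j (1 / 100) 12 + 2 * It 15 j (1 / 100) 12
        + It 14 j (1 / 100) 12 - 4 * It 1 j (1 / 100) 12 - 3 * It 2 j (1 / 100) 12))
      (fun j => It 46 j (1 / 100) 46)
      (fun j => max (1 / 100) (min 12 (((18 : ℕ) : ℚ) / j)) - 1 / 100)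
      (fun j => max (1 / 100) (min 12 (((16 : ℕ) : ℚ) / j)) - 1 / 100)
      (fun j => max (1 / 100) (min 12 (((14 : ℕ) : ℚ) / j)) - 1 / 100)
    unfold LA2 LU2 Ifl2 tm
    rw [e]
    ring
  have h2 := sumI_spec 4600
  have h3 : ((sumI 4600 : ℤ) : ℚ) ≤ ((502999605667 : ℤ) : ℚ) := by exact_mod_cast sum_all
  have h4 := LB_eq
  push_cast at h3
  linarith

end Pool.Agent.Q203.ZV
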