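import Pool.Agent.H336R2.Z5.P26

/-!
# The p-adic bound for `n/100 < p < 12 n`: even levels, and all primes down to `n/100`
-/

open Polynomial Pool.Agent.H337R2 Pool.Agent.H336R2 Pool.Agent.H336R2.Z5

namespace Pool.Agent.Q203.ZV

noncomputable section

set_option autoImplicit false

/-- the range of `j` -/
abbrev J2 : Finset ℕ := Finset.Icc 1 4600

/-- exponent for `n/100 < p < 12 n` -/
def EA2 (n p : ℕ) : ℝ :=
  90 * n - 23 * n * (vv n p : ℝ) +
    ∑ j ∈ J2, (tn (18 * n) j p + 2 * tn (17 * n) j p + 3 * tn (16 * n) j p + 2 * tn (15 * n) j p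
      + tn (14 * n) j p - 4 * tn n j p - 3 * tn (2 * n) j p)

/-- pairs of points in the same class, two concentric intervals -/
theorem pairs2 {n p : ℕ} (hp : p.Prime) (hpn : n < 100 * p) (A L D : ℕ) (hLD : L + D ≤ 18 * n) :
    ((∑ r ∈ Finset.range p, cnt p A (A + L + 2 * D) r * cnt p (A + D) (A + D + L) r : ℕ) : ℝ) ≤
      (L + 1) + 2 * ∑ j ∈ J2, (tn (L + D) j p - tn D j p + 1) := by
  have hp0 : 0 < p := hp.pos
  have hJ : ∀ j : ℕ, 1 ≤ j → j < 1800 → j ∈ J2 := fun j h1 h2 => Finset.mem_Icc.2 ⟨h1, by omega⟩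
  generalize J2 = K at hJ ⊢
  refine le_trans (Nat.cast_le.2
    (Pool.Agent.H336R2.HD.E2_pairs_le p A (A + L + 2 * D) (A + D) (A + D + L))) ?_
  have hj360 : ∀ j : ℕ, j * p ≤ L + D → j < 1800 := by
    intro j hj
    by_contra hcon
    push Not at hcon
    have : 1800 * p ≤ j * p := Nat.mul_le_mul_right _ hcon
    omega
  have hsub : ((Finset.Icc A (A + L + 2 * D) ×ˢ Finset.Icc (A + D) (A + D + L)).filter
        fun x : ℕ × ℕ => (p : ℤ) ∣ (x.1 : ℤ) - x.2) ⊆
      (Finset.Icc (A + D) (A + D + L)).image (fun y => (y, y)) ∪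
        ((K.biUnion fun j => (Finset.Ico (max (A + D) (A + j * p)) (A + D + L + 1)).image
            fun y => (y - j * p, y)) ∪
         (K.biUnion fun j => (Finset.Ico (A + D) (min (A + D + L + 1) (A + L + 2 * D + 1 - j * p))).image
            fun y => (y + j * p, y))) := by
    rintro ⟨x, y⟩ hx
    rw [Finset.mem_filter, Finset.mem_product, Finset.mem_Icc, Finset.mem_Icc] at hx
    obtain ⟨⟨⟨hx1, hx2⟩, hy1, hy2⟩, q, hq⟩ := hx
    simp only at hx1 hx2 hy1 hy2 hq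
    rw [Finset.mem_union, Finset.mem_union]
    rcases lt_trichotomy q 0 with h | h | h
    · right; left
      obtain ⟨j, rfl⟩ : ∃ j : ℕ, q = -(j : ℤ) := ⟨q.natAbs, by omega⟩
      have hj1 : 1 ≤ j := by omega
      have hy : y = x + j * p := by
        zify; linarith
      have hjL : j * p ≤ L + D := by omega
      rw [Finset.mem_biUnion]
      refine ⟨j, hJ j hj1 (hj360 j hjL), ?_⟩
      rw [Finset.mem_image]
      refine ⟨y, Finset.mem_Ico.2 ⟨max_le hy1 (by omega), by omega⟩, ?_⟩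
      rw [hy, Nat.add_sub_cancel]
    · left
      rw [Finset.mem_image]
      refine ⟨y, Finset.mem_Icc.2 ⟨hy1, hy2⟩, ?_⟩
      rw [h] at hq
      have : x = y := by omega
      rw [this]
    · right; right
      obtain ⟨j, rfl⟩ : ∃ j : ℕ, q = (j : ℤ) := ⟨q.natAbs, by omega⟩
      have hj1 : 1 ≤ j := by omega
      have hy : x = y + j * p := by
        zify; linarith
      have hjL : j * p ≤ L + D := by omega
      rw [Finset.mem_biUnion]
      refine ⟨j, hJ j hj1 (hj360 j hjL), ?_⟩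
      rw [Finset.mem_image]
      exact ⟨y, Finset.mem_Ico.2 ⟨hy1, lt_min (by omega) (by omega)⟩, by rw [hy]⟩
  have hb : ∀ (g : ℕ → Finset ℕ) (f : ℕ → ℕ → ℕ × ℕ),
      (∀ j, (g j).card + (D - j * p) ≤ (L + D - j * p) + 1) →
      ((K.biUnion fun j => (g j).image (f j)).card : ℝ) ≤
        ∑ j ∈ K, (tn (L + D) j p - tn D j p + 1) := by
    intro g f hg
    have e1 : (K.biUnion fun j => (g j).image (f j)).card ≤ ∑ j ∈ K, (g j).card := by
      refine Finset.card_biUnion_le.trans (Finset.sum_le_sum fun j _ => ?_)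
      exact Finset.card_image_le
    have e2 : ((∑ j ∈ K, (g j).card : ℕ) : ℝ) ≤ ∑ j ∈ K, (tn (L + D) j p - tn D j p + 1) := by
      rw [Nat.cast_sum]
      refine Finset.sum_le_sum fun j _ => ?_
      unfold tn
      have h := hg j
      have h' : ((g j).card : ℝ) + ((D - j * p : ℕ) : ℝ) ≤ ((L + D - j * p : ℕ) : ℝ) + 1 := by
        exact_mod_cast h
      linarith
    exact le_trans (by exact_mod_cast e1) e2
  have hc := Finset.card_le_card hsub
  have hc2 := hc.trans ((Finset.card_union_le _ _).trans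
    (Nat.add_le_add_left (Finset.card_union_le _ _) _))
  have hd : ((Finset.Icc (A + D) (A + D + L)).image (fun y => (y, y))).card ≤ L + 1 := by
    refine Finset.card_image_le.trans ?_
    rw [Nat.card_Icc]; omega
  have b1 := hb (fun j => Finset.Ico (max (A + D) (A + j * p)) (A + D + L + 1))
    (fun j y => (y - j * p, y)) (fun j => by
      rw [Nat.card_Ico]
      generalize j * p = d
      omega)
  have b2 := hb (fun j => Finset.Ico (A + D) (min (A + D + L + 1) (A + L + 2 * D + 1 - j * p)))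
    (fun j y => (y + j * p, y)) (fun j => by
      rw [Nat.card_Ico]
      generalize j * p = d
      omega)
  have hd' : (((Finset.Icc (A + D) (A + D + L)).image (fun y => (y, y))).card : ℝ) ≤ (L : ℝ) + 1 := by
    exact_mod_cast hd
  refine le_trans (Nat.cast_le.2 hc2) ?_
  push_cast
  linarith

lemma sumJ2 (L D : ℕ) (p : ℕ) : ∑ j ∈ J2, (tn (L + D) j p - tn D j p + 1) =
    ∑ j ∈ J2, tn (L + D) j p - ∑ j ∈ J2, tn D j p + 4600 := by
  rw [Finset.sum_add_distrib, Finset.sum_sub_distrib, Finset.sum_const, Nat.card_Icc]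
  norm_num

theorem sum_sr2 {n p : ℕ} (hp : p.Prime) (hpn : n < 100 * p) :
    ((∑ r ∈ Finset.range p, sr n p r ^ 2 : ℕ) : ℝ) ≤ 136 * n +
      2 * ∑ j ∈ J2, (tn (18 * n) j p + 2 * tn (17 * n) j p + 3 * tn (16 * n) j p + 2 * tn (15 * n) j p
      + tn (14 * n) j p - 4 * tn n j p - 2 * tn (2 * n) j p) + 82809 := by
  have hpairs := fun (A L D : ℕ) (hLD : L + D ≤ 18 * n) => pairs2 hp hpn A L D hLD
  have h1 := hpairs (3 * n) (18 * n) 0 (by omega)
  have h2 := hpairs (4 * n) (16 * n) 0 (by omega)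
  have h3 := hpairs (5 * n) (14 * n) 0 (by omega)
  have h4 := hpairs (3 * n) (16 * n) n (by omega)
  have h5 := hpairs (3 * n) (14 * n) (2 * n) (by omega)
  have h6 := hpairs (4 * n) (14 * n) n (by omega)
  have hz : ∑ j ∈ J2, tn 0 j p = 0 := Finset.sum_eq_zero fun j _ => P24_tn_zero j p
  rw [sumJ2] at h1 h2 h3 h4 h5 h6
  rw [hz] at h1 h2 h3
  have a1 : 3 * n + 18 * n + 2 * 0 = 21 * n := by ring
  have a2 : 3 * n + 0 + 18 * n = 21 * n := by ring
  have a3 : 4 * n + 16 * n + 2 * 0 = 20 * n := by ring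
  have a4 : 4 * n + 0 + 16 * n = 20 * n := by ring
  have a5 : 5 * n + 14 * n + 2 * 0 = 19 * n := by ring
  have a6 : 5 * n + 0 + 14 * n = 19 * n := by ring
  have a7 : 3 * n + 16 * n + 2 * n = 21 * n := by ring
  have a8 : 3 * n + n = 4 * n := by ring
  have a9 : 3 * n + n + 16 * n = 20 * n := by ring
  have a10 : 3 * n + 14 * n + 2 * (2 * n) = 21 * n := by ring
  have a11 : 3 * n + 2 * n = 5 * n := by ring
  have a12 : 3 * n + 2 * n + 14 * n = 19 * n := by ring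
  have a13 : 4 * n + 14 * n + 2 * n = 20 * n := by ring
  have a14 : 4 * n + n = 5 * n := by ring
  have a15 : 4 * n + n + 14 * n = 19 * n := by ring
  have a16 : 16 * n + n = 17 * n := by ring
  have a17 : 14 * n + 2 * n = 16 * n := by ring
  have a18 : 14 * n + n = 15 * n := by ring
  rw [a1, a2, add_zero, add_zero] at h1
  rw [a3, a4, add_zero, add_zero] at h2
  rw [a5, a6, add_zero, add_zero] at h3
  rw [a7, a9, a8, a16] at h4
  rw [a10, a12, a11, a17] at h5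
  rw [a13, a15, a14, a18] at h6
  have hsq : ∑ r ∈ Finset.range p, sr n p r ^ 2 =
      ∑ r ∈ Finset.range p, cnt p (3 * n) (21 * n) r * cnt p (3 * n) (21 * n) r +
      ∑ r ∈ Finset.range p, cnt p (4 * n) (20 * n) r * cnt p (4 * n) (20 * n) r +
      ∑ r ∈ Finset.range p, cnt p (5 * n) (19 * n) r * cnt p (5 * n) (19 * n) r +
      2 * ∑ r ∈ Finset.range p, cnt p (3 * n) (21 * n) r * cnt p (4 * n) (20 * n) r +
      2 * ∑ r ∈ Finset.range p, cnt p (3 * n) (21 * n) r * cnt p (5 * n) (19 * n) r +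
      2 * ∑ r ∈ Finset.range p, cnt p (4 * n) (20 * n) r * cnt p (5 * n) (19 * n) r := by
    rw [Finset.mul_sum, Finset.mul_sum, Finset.mul_sum, ← Finset.sum_add_distrib,
      ← Finset.sum_add_distrib, ← Finset.sum_add_distrib, ← Finset.sum_add_distrib,
      ← Finset.sum_add_distrib]
    refine Finset.sum_congr rfl fun r _ => ?_
    unfold sr
    ring
  have hT : ∑ j ∈ J2, (tn (18 * n) j p + 2 * tn (17 * n) j p + 3 * tn (16 * n) j p +
      2 * tn (15 * n) j p + tn (14 * n) j p - 4 * tn n j p - 2 * tn (2 * n) j p) =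
      ∑ j ∈ J2, tn (18 * n) j p + 2 * ∑ j ∈ J2, tn (17 * n) j p + 3 * ∑ j ∈ J2, tn (16 * n) j p +
      2 * ∑ j ∈ J2, tn (15 * n) j p + ∑ j ∈ J2, tn (14 * n) j p - 4 * ∑ j ∈ J2, tn n j p -
      2 * ∑ j ∈ J2, tn (2 * n) j p := by
    simp only [Finset.sum_add_distrib, Finset.sum_sub_distrib, Finset.mul_sum]
  rw [hsq, hT]
  rw [Nat.cast_add, Nat.cast_add, Nat.cast_add, Nat.cast_add, Nat.cast_add, Nat.cast_mul,
    Nat.cast_mul, Nat.cast_mul]
  rw [Nat.cast_mul, Nat.cast_ofNat] at h1 h2 h3 h4 h5 h6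
  rw [Nat.cast_ofNat]
  linarith

/-- the sum of the tents of height `2 n` -/
lemma tent2 {n p : ℕ} (hp : 0 < p) :
    ∑ j ∈ J2, tn (2 * n) j p ≤ 2 * n * ((2 * n / p : ℕ) : ℝ) -
      p * (((2 * n / p : ℕ) : ℝ) * (((2 * n / p : ℕ) : ℝ) + 1)) / 2 := by
  set q : ℕ := 2 * n / p with hq
  have h1 : ∀ j : ℕ, tn (2 * n) j p = if j ≤ q then 2 * (n : ℝ) - j * p else 0 := by
    intro j
    unfold tn
    split_ifs with h
    · have h2 : j * p ≤ 2 * n := by
        rw [hq, Nat.le_div_iff_mul_le hp] at h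
        exact h
      rw [Nat.cast_sub h2]
      push_cast
      ring
    · have h2 : 2 * n - j * p = 0 := by
        rw [hq, Nat.le_div_iff_mul_le hp] at h
        omega
      rw [h2, Nat.cast_zero]
  have h2 : ∀ q' : ℕ, ∑ j ∈ Finset.Icc 1 q', (2 * (n : ℝ) - j * p) = 2 * n * q' - p * (q' * (q' + 1)) / 2 := by
    intro q'
    induction q' with
    | zero => simp
    | succ k ih =>
      rw [Finset.sum_Icc_succ_top (by omega), ih]
      push_cast
      ring
  rw [← h2 q]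
  have h3 : ∑ j ∈ J2, tn (2 * n) j p = ∑ j ∈ J2.filter (fun j => j ≤ q), (2 * (n : ℝ) - j * p) := by
    rw [Finset.sum_filter]
    exact Finset.sum_congr rfl fun j _ => h1 j
  rw [h3]
  apply Finset.sum_le_sum_of_subset_of_nonneg
  · intro j hj
    rw [Finset.mem_filter, Finset.mem_Icc] at hj
    rw [Finset.mem_Icc]
    exact ⟨hj.1.1, hj.2⟩
  · intro j hj _
    rw [Finset.mem_Icc] at hj
    have h4 := hj.2
    rw [hq, Nat.le_div_iff_mul_le hp] at h4
    have h5 : ((j * p : ℕ) : ℝ) ≤ ((2 * n : ℕ) : ℝ) := by exact_mod_cast h4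
    push_cast at h5
    linarith

lemma cnt2 {p A B r n : ℕ} (hp : 0 < p) (hpn : n < 100 * p) (hAB : A ≤ B + 1)
    (hB : B ≤ A + 18 * n) : cnt p A B r ≤ 1800 := by
  have h1 := Pool.Agent.H336R2.HD.E3_cnt_le p A B r hp hAB
  have hp' : (0 : ℤ) < p := by exact_mod_cast hp
  have h2 : ((B : ℤ) - A + 1) / p < 1800 := by
    apply Int.ediv_lt_of_lt_mul hp'
    have h3 : (B : ℤ) ≤ A + 18 * n := by exact_mod_cast hB
    have h4 : (n : ℤ) < 100 * p := by exact_mod_cast hpn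
    linarith
  omega

lemma sr_le2 {n p : ℕ} (hp : 0 < p) (hpn : n < 100 * p) (r : ℕ) : sr n p r ≤ 5400 := by
  unfold sr
  have h1 := cnt2 (r := r) (A := 3 * n) (B := 21 * n) hp hpn (by omega) (by omega)
  have h2 := cnt2 (r := r) (A := 4 * n) (B := 20 * n) hp hpn (by omega) (by omega)
  have h3 := cnt2 (r := r) (A := 5 * n) (B := 19 * n) hp hpn (by omega) (by omega)
  omega

lemma vv_le2 {n p : ℕ} (hp : 0 < p) (hpn : n < 100 * p) : vv n p ≤ 9600 := by
  unfold vv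
  have h1 : 18 * n / p < 1800 := by rw [Nat.div_lt_iff_lt_mul hp]; omega
  have h2 : 16 * n / p < 1600 := by rw [Nat.div_lt_iff_lt_mul hp]; omega
  have h3 : 14 * n / p < 1400 := by rw [Nat.div_lt_iff_lt_mul hp]; omega
  omega

lemma TT_even2 (d : ℤ) : TT (2 * d) ≤ d ^ 2 + d := by
  unfold TT
  split_ifs with h
  · have h : (2 * d + 1) ^ 2 = 1 + 4 * (d ^ 2 + d) := by ring
    rw [h, Int.add_mul_ediv_left _ _ (by norm_num)]
    norm_num
  · have h2 : d ≤ 0 := by omega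
    rcases lt_or_eq_of_le h2 with h3 | h3
    · nlinarith
    · rw [h3]; norm_num

/-- **the p-adic exponent with an even level** -/
theorem exp_A : ∃ K0 : ℝ, ∀ n p : ℕ, p.Prime → 7 ≤ n → n < 100 * p → p < 12 * n → 48 * n < p ^ 2 →
    ((((mN n : ℕ) : ℤ) * (2 * ((2 * n / p : ℕ) + 1 : ℤ) - vv n p) +
      ∑ κ ∈ Kset n p, TT (-(eeN p n κ) - (2 * ((2 * n / p : ℕ) + 1 : ℤ) - vv n p)) : ℤ) : ℝ) ≤
      EA2 n p + K0 := by
  refine ⟨82809 / 2 + 9600 * 23 + (5400 ^ 2 + 5400) / 2 + 10, ?_⟩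
  intro n p hp hn hpn hp12 hp2
  have hp0 := hp.pos
  have hsr := sr_le2 hp0 hpn
  have hvv := vv_le2 hp0 hpn
  have hp2' : p ≠ 2 := by
    rintro rfl
    omega
  have h3 := tent2 (n := n) (p := p) hp0
  have hq200 : 2 * n / p < 200 := by rw [Nat.div_lt_iff_lt_mul hp0]; omega
  generalize 2 * n / p = q at h3 hq200 ⊢
  obtain ⟨d, hd⟩ : ∃ d : ℕ → ℤ, d = fun r => (sr n p r : ℤ) - (q + 1) := ⟨_, rfl⟩
  have hTT : ∀ κ, TT (-(eeN p n κ) - (2 * ((q : ℤ) + 1) - vv n p)) ≤ d κ ^ 2 + d κ := by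
    intro κ
    have e : -(eeN p n κ) - (2 * ((q : ℤ) + 1) - vv n p) = 2 * d κ := by
      rw [P3_ee_form, hd]
      ring
    rw [e]
    exact TT_even2 _
  have hK := P3_Kset_sum hp hp2' (by omega : p < 24 * n) (fun r => d r ^ 2 + d r) (5400 ^ 2 + 5400) (by norm_num)
    (by
      intro r hr
      have h1 := P3_ee_sym hp (by omega : 1 ≤ n) hr (by omega)
      rw [P3_ee_form, P3_ee_form] at h1
      have h2 : (sr n p r : ℤ) = sr n p ((24 * n - r) % p) := by linarith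
      simp only [hd]
      rw [h2])
    (by
      intro r _
      have h1 := hsr r
      have h2 : |d r| ≤ 5400 := by
        simp only [hd]
        rw [abs_le]
        constructor <;> omega
      have h3 : d r ^ 2 ≤ 5400 ^ 2 := sq_le_sq' (by linarith [(abs_le.1 h2).1]) (abs_le.1 h2).2
      linarith [(abs_le.1 h2).2])
  have hS : (∑ κ ∈ Kset n p, TT (-(eeN p n κ) - (2 * ((q : ℤ) + 1) - vv n p))) ≤
      ∑ κ ∈ Kset n p, (d κ ^ 2 + d κ) := Finset.sum_le_sum fun κ _ => hTT κ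
  have hsum : ((∑ r ∈ Finset.range p, (d r ^ 2 + d r) : ℤ) : ℝ) =
      ((∑ r ∈ Finset.range p, sr n p r ^ 2 : ℕ) : ℝ) - (2 * q + 1) * (48 * n + 3) +
        p * (((q : ℝ) + 1) * q) := by
    have h1 := P3_sum_sr (n := n) hp
    have h1' : (∑ r ∈ Finset.range p, (sr n p r : ℝ)) = 48 * n + 3 := by
      exact_mod_cast h1
    rw [hd]
    push_cast
    have h2 : ∀ r ∈ Finset.range p, (((sr n p r : ℝ) - (q + 1)) ^ 2 + ((sr n p r : ℝ) - (q + 1))) =
        (sr n p r : ℝ) ^ 2 - (2 * q + 1) * (sr n p r : ℝ) + ((q : ℝ) + 1) * q := by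
      intro r _
      ring
    rw [Finset.sum_congr rfl h2, Finset.sum_add_distrib, Finset.sum_sub_distrib, ← Finset.mul_sum,
      h1', Finset.sum_const, Finset.card_range, nsmul_eq_mul]
  have hKR : 2 * ((∑ κ ∈ Kset n p, (d κ ^ 2 + d κ) : ℤ) : ℝ) ≤
      ((∑ r ∈ Finset.range p, (d r ^ 2 + d r) : ℤ) : ℝ) + (5400 ^ 2 + 5400) := by
    exact_mod_cast hK
  have hSR : ((∑ κ ∈ Kset n p, TT (-(eeN p n κ) - (2 * ((q : ℤ) + 1) - vv n p)) : ℤ) : ℝ) ≤
      ((∑ κ ∈ Kset n p, (d κ ^ 2 + d κ) : ℤ) : ℝ) := by exact_mod_cast hS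
  have h2 := sum_sr2 hp hpn
  have hm : ((mN n : ℕ) : ℝ) = 23 * n - 23 := by
    unfold mN
    rw [Nat.cast_mul, Nat.cast_sub (by omega)]
    push_cast
    ring
  have hvvR : (vv n p : ℝ) ≤ 9600 := by exact_mod_cast hvv
  have hq0 : (0 : ℝ) ≤ q := Nat.cast_nonneg _
  have hspl : ∑ j ∈ J2, (tn (18 * n) j p + 2 * tn (17 * n) j p + 3 * tn (16 * n) j p + 2 * tn (15 * n) j p
      + tn (14 * n) j p - 4 * tn n j p - 3 * tn (2 * n) j p) =
      ∑ j ∈ J2, (tn (18 * n) j p + 2 * tn (17 * n) j p + 3 * tn (16 * n) j p + 2 * tn (15 * n) j p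
      + tn (14 * n) j p - 4 * tn n j p - 2 * tn (2 * n) j p) - ∑ j ∈ J2, tn (2 * n) j p := by
    rw [← Finset.sum_sub_distrib]
    exact Finset.sum_congr rfl fun j _ => by ring
  unfold EA2
  rw [hspl, Int.cast_add, Int.cast_mul, Int.cast_natCast, hm]
  have e1 : ((2 * ((q : ℤ) + 1) - vv n p : ℤ) : ℝ) = 2 * ((q : ℝ) + 1) - vv n p := by
    push_cast
    ring
  rw [e1]
  rw [hsum] at hKR
  generalize ∑ j ∈ J2, (tn (18 * n) j p + 2 * tn (17 * n) j p + 3 * tn (16 * n) j p +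
    2 * tn (15 * n) j p + tn (14 * n) j p - 4 * tn n j p - 2 * tn (2 * n) j p) = Sj at h2 ⊢
  generalize ∑ j ∈ J2, tn (2 * n) j p = So at h3 ⊢
  generalize ((∑ κ ∈ Kset n p, TT (-(eeN p n κ) - (2 * ((q : ℤ) + 1) - vv n p)) : ℤ) : ℝ) = t1
    at hSR ⊢
  generalize ((∑ κ ∈ Kset n p, (d κ ^ 2 + d κ) : ℤ) : ℝ) = t2 at hSR hKR
  generalize ((∑ r ∈ Finset.range p, sr n p r ^ 2 : ℕ) : ℝ) = t3 at h2 hKR
  generalize (q : ℝ) = ρ at *
  generalize (vv n p : ℝ) = v at *
  nlinarith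

end

end Pool.Agent.Q203.ZV
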