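import Pool.Agent.Q203.ZV.PA
import Pool.Agent.H336R2.Z5.P43
import Pool.Agent.H336R2.Z5.P46
import Pool.Agent.H336R2.HD.F2pre
import Pool.Agent.H337R2.Asym

/-!
# The sums over the primes, down to `n/100`
-/

open Polynomial Pool.Agent.H337R2 Pool.Agent.H336R2 Pool.Agent.H336R2.Z5 Filter Topology
open Pool.Agent.H336R2.HD (Lm Lm.add Lm.sub Lm.mul Lm.sum Lm.of_eq)

namespace Pool.Agent.Q203.ZV

noncomputable section

set_option autoImplicit false

/-- limit of the floor sums -/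
def Ifl2 (α : ℕ) (lo hi : ℚ) : ℚ := ∑ j ∈ J2, (max lo (min hi ((α : ℚ) / j)) - lo)

/-- the limit for `n/100 < p < 12 n` -/
def LA2 : ℚ := 90 * (12 - 1 / 100) - 46 * (Ifl2 18 (1 / 100) 12 + Ifl2 16 (1 / 100) 12 + Ifl2 14 (1 / 100) 12) +
  ∑ j ∈ J2, (It 18 j (1 / 100) 12 + 2 * It 17 j (1 / 100) 12 + 3 * It 16 j (1 / 100) 12 + 2 * It 15 j (1 / 100) 12
    + It 14 j (1 / 100) 12 - 4 * It 1 j (1 / 100) 12 - 3 * It 2 j (1 / 100) 12)

/-- the limit of the superfactorials -/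
def LU2 : ℚ := ∑ j ∈ J2, It 46 j (1 / 100) 46

theorem floor_sum2 (α n p : ℕ) (hα : α ≤ 46) (hp : 0 < p) (hn : n < 100 * p) :
    ((α * n / p : ℕ) : ℝ) = ∑ j ∈ J2, if j * p ≤ α * n then (1 : ℝ) else 0 := by
  have h1 : α * n / p ≤ 4600 := by
    have h2 : α * n ≤ 46 * n := Nat.mul_le_mul_right _ hα
    have h3 : α * n < p * 4600 := by omega
    exact (Nat.div_lt_of_lt_mul h3).le
  rw [Finset.sum_ite, Finset.sum_const_zero, add_zero, Finset.sum_const, nsmul_eq_mul, mul_one]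
  have h4 : (J2.filter fun j => j * p ≤ α * n) = Finset.Icc 1 (α * n / p) := by
    ext j
    simp only [Finset.mem_filter, Finset.mem_Icc]
    rw [← Nat.le_div_iff_mul_le hp]
    constructor
    · rintro ⟨⟨h5, _⟩, h6⟩; exact ⟨h5, h6⟩
    · rintro ⟨h5, h6⟩; exact ⟨⟨h5, by omega⟩, h6⟩
  rw [h4, Nat.card_Icc]
  simp

theorem floor2 (α : ℕ) (lo hi : ℚ) (h0 : 1 / 100 ≤ lo) (h1 : lo ≤ hi) (h2 : hi ≤ 48)
    (hα : α ≤ 46) :
    Tendsto (fun n : ℕ => (∑ p ∈ PS lo hi n, (n : ℝ) * ((α * n / p : ℕ) : ℝ) * Real.log p) /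
      (n : ℝ) ^ 2) atTop (𝓝 ((Ifl2 α lo hi : ℚ) : ℝ)) := by
  classical
  have hlo : 0 < lo := lt_of_lt_of_le (by norm_num) h0
  have hsum : Tendsto (fun n : ℕ => ∑ j ∈ J2, (∑ p ∈ PS lo hi n,
      if j * p ≤ α * n then (n : ℝ) * Real.log p else 0) / (n : ℝ) ^ 2) atTop
      (𝓝 (∑ j ∈ J2, ((max lo (min hi ((α : ℚ) / j)) - lo : ℚ) : ℝ))) := by
    apply tendsto_finsetSum
    intro j hj
    exact P42a.one_j P5_const α j hα (Finset.mem_Icc.1 hj).1 lo hi hlo h1 h2
  have hlim : (∑ j ∈ J2, ((max lo (min hi ((α : ℚ) / j)) - lo : ℚ) : ℝ)) =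
      ((Ifl2 α lo hi : ℚ) : ℝ) := by
    unfold Ifl2
    push_cast
    rfl
  rw [hlim] at hsum
  refine hsum.congr ?_
  intro n
  rw [← Finset.sum_div, Finset.sum_comm]
  congr 1
  apply Finset.sum_congr rfl
  intro p hp
  rw [P42a.mem_PS] at hp
  obtain ⟨a1, a2, a3, a4⟩ := hp
  have hn20 : n < 100 * p := by
    have h5 : (1 / 100 : ℝ) ≤ lo := by
      have : ((1 / 100 : ℚ) : ℝ) ≤ (lo : ℝ) := by exact_mod_cast h0
      push_cast at this
      exact this
    have h6 : (1 / 100 : ℝ) * n ≤ lo * n := mul_le_mul_of_nonneg_right h5 (Nat.cast_nonneg _)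
    have h7 : (n : ℝ) < 100 * p := by linarith
    exact_mod_cast h7
  rw [floor_sum2 α n p hα a2.pos hn20, Finset.mul_sum, Finset.sum_mul]
  apply Finset.sum_congr rfl
  intro j _
  split_ifs
  · ring
  · ring

theorem lim_A2 :
    Tendsto (fun n : ℕ => (∑ p ∈ PS (1 / 100) 12 n, EA2 n p * Real.log p) / (n : ℝ) ^ 2) atTop (𝓝 (LA2 : ℝ)) := by
  have T : ∀ α j : ℕ, j ∈ J2 → Lm (PS ((1 / 100 : ℚ) : ℝ) ((12 : ℚ) : ℝ)) (fun n p => tn (α * n) j p)
      ((It α j (1 / 100) 12 : ℚ) : ℝ) := fun α j hj =>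
    P5_tent α j (Finset.mem_Icc.mp hj).1 (1 / 100) 12 (by norm_num) (by norm_num) (by norm_num)
  have T1 : ∀ j : ℕ, j ∈ J2 → Lm (PS ((1 / 100 : ℚ) : ℝ) ((12 : ℚ) : ℝ)) (fun n p => tn n j p)
      ((It 1 j (1 / 100) 12 : ℚ) : ℝ) := fun j hj =>
    (T 1 j hj).of_eq rfl (fun n p => by rw [one_mul]) rfl
  have F : ∀ α : ℕ, α ≤ 46 → Lm (PS ((1 / 100 : ℚ) : ℝ) ((12 : ℚ) : ℝ)) (fun n p => (n : ℝ) * ((α * n / p : ℕ) : ℝ))
      ((Ifl2 α (1 / 100) 12 : ℚ) : ℝ) := fun α hα =>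
    floor2 α (1 / 100) 12 (by norm_num) (by norm_num) (by norm_num) hα
  have K : Lm (PS ((1 / 100 : ℚ) : ℝ) ((12 : ℚ) : ℝ)) (fun n _ => (n : ℝ)) (((12 - 1 / 100 : ℚ)) : ℝ) :=
    P5_const (1 / 100) 12 (by norm_num) (by norm_num) (by norm_num)
  have SX := Lm.sum J2 (fun j hj => ((((((T 18 j hj).add ((T 17 j hj).mul 2)).add ((T 16 j hj).mul 3)).add
    ((T 15 j hj).mul 2)).add (T 14 j hj)).sub ((T1 j hj).mul 4)).sub ((T 2 j hj).mul 3))
  have H := ((K.mul 90).sub ((((F 18 (by norm_num)).add (F 16 (by norm_num))).add (F 14 (by norm_num))).mul 46)).add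
    SX
  refine Lm.of_eq H ?_ ?_ ?_
  · push_cast; rfl
  · intro n p
    unfold EA2 vv
    push_cast
    ring
  · unfold LA2
    push_cast
    ring

theorem lim_U2 :
    Tendsto (fun n : ℕ => (∑ p ∈ PS (1 / 100) 46 n, (∑ j ∈ J2, tn (46 * n) j p) * Real.log p) / (n : ℝ) ^ 2)
      atTop (𝓝 (LU2 : ℝ)) := by
  have T : ∀ α j : ℕ, j ∈ J2 → Lm (PS ((1 / 100 : ℚ) : ℝ) ((46 : ℚ) : ℝ)) (fun n p => tn (α * n) j p)
      ((It α j (1 / 100) 46 : ℚ) : ℝ) := fun α j hj =>
    P5_tent α j (Finset.mem_Icc.mp hj).1 (1 / 100) 46 (by norm_num) (by norm_num) (by norm_num)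
  have H := Lm.sum J2 (fun j hj => T 46 j hj)
  refine Lm.of_eq H ?_ ?_ ?_
  · push_cast; rfl
  · intro n p
    rfl
  · unfold LU2
    push_cast
    rfl

/-- small primes: trivial exponents -/
theorem small2 (B : ℝ) (hB : 0 ≤ B) : ∀ ε : ℝ, 0 < ε → ∀ᶠ n : ℕ in atTop,
    23 * (n : ℝ) * (∑ p ∈ (Finset.range (n + 1)).filter (fun p : ℕ => p.Prime ∧ p ^ 2 ≤ 48 * n),
        B * Real.log (48 * n + 1) +
      ∑ p ∈ (Finset.range (n + 1)).filter (fun p : ℕ => p.Prime ∧ 100 * p ≤ n), 6 * Real.log p) ≤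
    (69 / 50 + ε) * (n : ℝ) ^ 2 := by
  intro ε hε
  filter_upwards [Pool.Agent.H337R2.rpow_lim 49 (by norm_num) (ε / (368 * (B + 1))) (by positivity),
    Pool.Agent.H337R2.theta_lim (1 / 100) (by norm_num) (ε / 276) (by positivity), eventually_ge_atTop 1] with n h1 h2 hn
  have hn0 : (1 : ℝ) ≤ n := by exact_mod_cast hn
  have hM1 : (1 : ℝ) ≤ 48 * (n : ℝ) + 1 := by linarith
  have hlog0 : 0 ≤ Real.log (48 * (n : ℝ) + 1) := Real.log_nonneg hM1
  -- second sum
  have hS2 : ∑ p ∈ (Finset.range (n + 1)).filter (fun p : ℕ => p.Prime ∧ 100 * p ≤ n), 6 * Real.log (p : ℝ) ≤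
      6 * Chebyshev.theta (1 / 100 * n) := by
    rw [← Finset.mul_sum]
    apply mul_le_mul_of_nonneg_left _ (by norm_num)
    unfold Chebyshev.theta
    apply Finset.sum_le_sum_of_subset_of_nonneg
    · intro p hp
      rw [Finset.mem_filter] at hp
      rw [Finset.mem_filter, Finset.mem_Ioc]
      refine ⟨⟨hp.2.1.pos, ?_⟩, hp.2.1⟩
      rw [Nat.le_floor_iff (by positivity)]
      have : ((100 * p : ℕ) : ℝ) ≤ (n : ℝ) := by exact_mod_cast hp.2.2
      push_cast at this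
      linarith
    · intro p hp _
      rw [Finset.mem_filter] at hp
      exact Real.log_nonneg (by exact_mod_cast hp.2.one_lt.le)
  -- first sum
  have hcard : (((Finset.range (n + 1)).filter (fun p : ℕ => p.Prime ∧ p ^ 2 ≤ 48 * n)).card : ℝ) ≤
      (Nat.sqrt (48 * n) : ℝ) + 1 := by
    have hsub : (Finset.range (n + 1)).filter (fun p : ℕ => p.Prime ∧ p ^ 2 ≤ 48 * n) ⊆
        Finset.range (Nat.sqrt (48 * n) + 1) := by
      intro p hp
      rw [Finset.mem_filter] at hp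
      rw [Finset.mem_range]
      have : p ≤ Nat.sqrt (48 * n) := Nat.le_sqrt'.2 hp.2.2
      omega
    have := Finset.card_le_card hsub
    rw [Finset.card_range] at this
    exact_mod_cast this
  have hS1 : ∑ p ∈ (Finset.range (n + 1)).filter (fun p : ℕ => p.Prime ∧ p ^ 2 ≤ 48 * n),
        B * Real.log (48 * (n : ℝ) + 1) ≤ ε / 46 * n := by
    rw [Finset.sum_const, nsmul_eq_mul]
    have h3 : Real.log (48 * (n : ℝ) + 1) ≤ (48 * (n : ℝ) + 1) ^ (1 / 4 : ℝ) / (1 / 4) :=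
      Real.log_le_rpow_div (by positivity) (by norm_num)
    have h4 : ((Nat.sqrt (48 * n) : ℕ) : ℝ) + 1 ≤ 2 * (48 * (n : ℝ) + 1) ^ (1 / 2 : ℝ) := by
      have h5 : ((Nat.sqrt (48 * n) : ℕ) : ℝ) ≤ Real.sqrt (48 * (n : ℝ) + 1) := by
        apply Real.le_sqrt_of_sq_le
        have := Nat.sqrt_le' (48 * n)
        exact_mod_cast (by omega : Nat.sqrt (48 * n) ^ 2 ≤ 48 * n + 1)
      rw [← Real.sqrt_eq_rpow]
      have h6 : 1 ≤ Real.sqrt (48 * (n : ℝ) + 1) := by
        rw [Real.one_le_sqrt]; exact hM1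
      linarith
    have h5 : (48 * (n : ℝ) + 1) ^ (3 / 4 : ℝ) ≤ ε / (368 * (B + 1)) * n := by
      refine le_trans ?_ h1
      apply Real.rpow_le_rpow (by positivity) (by linarith) (by norm_num)
    have h6 : (48 * (n : ℝ) + 1) ^ (1 / 2 : ℝ) * (48 * (n : ℝ) + 1) ^ (1 / 4 : ℝ) = (48 * (n : ℝ) + 1) ^ (3 / 4 : ℝ) := by
      rw [← Real.rpow_add (by positivity)]; norm_num
    have h7 : 0 ≤ (48 * (n : ℝ) + 1) ^ (1 / 2 : ℝ) := by positivity
    have h8 : 0 ≤ (48 * (n : ℝ) + 1) ^ (1 / 4 : ℝ) := by positivity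
    have hB1 : (8 * B) * (ε / (368 * (B + 1)) * n) ≤ ε / 46 * n := by
      have e1 : (8 * B) * (ε / (368 * (B + 1)) * n) = (ε / 46 * n) * (B / (B + 1)) := by
        field_simp
        ring
      rw [e1]
      have h9 : B / (B + 1) ≤ 1 := by
        rw [div_le_one (by positivity)]; linarith
      have h10 : 0 ≤ ε / 46 * (n : ℝ) := by positivity
      nlinarith
    calc _ ≤ (2 * (48 * (n : ℝ) + 1) ^ (1 / 2 : ℝ)) * (B * ((48 * (n : ℝ) + 1) ^ (1 / 4 : ℝ) / (1 / 4))) := by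
          apply mul_le_mul (hcard.trans h4) _ (by positivity) (by positivity)
          exact mul_le_mul_of_nonneg_left h3 hB
      _ = 8 * B * ((48 * (n : ℝ) + 1) ^ (1 / 2 : ℝ) * (48 * (n : ℝ) + 1) ^ (1 / 4 : ℝ)) := by ring
      _ = 8 * B * (48 * (n : ℝ) + 1) ^ (3 / 4 : ℝ) := by rw [h6]
      _ ≤ 8 * B * (ε / (368 * (B + 1)) * n) := mul_le_mul_of_nonneg_left h5 (by positivity)
      _ ≤ ε / 46 * n := hB1
  rw [abs_le] at h2
  have hT : 6 * Chebyshev.theta (1 / 100 * n) ≤ 6 * ((1 / 100 + ε / 276) * n) := by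
    have := h2.2
    linarith
  have hsum := add_le_add hS1 (hS2.trans hT)
  have hn6 : 0 ≤ 23 * (n : ℝ) := by positivity
  calc _ ≤ 23 * (n : ℝ) * (ε / 46 * n + 6 * ((1 / 100 + ε / 276) * n)) := mul_le_mul_of_nonneg_left hsum hn6
    _ = (69 / 50 + ε) * (n : ℝ) ^ 2 := by ring

lemma count2 (n p : ℕ) (hp : 0 < p) (h : n < 100 * p) :
    2 * ∑ i ∈ Finset.range (mN n), (2 * i - 1) / p ≤ ∑ j ∈ J2, (46 * n - j * p) := by
  have hmN : mN n = 23 * (n - 1) := rfl
  have h1 : ∀ i ∈ Finset.range (mN n),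
      (2 * i - 1) / p ≤ ∑ j ∈ J2, if j * p ≤ 2 * i - 1 then 1 else 0 := by
    intro i hi
    rw [Finset.mem_range] at hi
    rw [← Finset.card_filter]
    have h2 : (2 * i - 1) / p ≤ 4600 := by
      rw [Nat.div_le_iff_le_mul_add_pred hp]
      have : 46 * n < 4600 * p := by omega
      have h3 : p * 4600 = 4600 * p := by ring
      omega
    calc (2 * i - 1) / p = (Finset.Icc 1 ((2 * i - 1) / p)).card := by simp
      _ ≤ _ := by
        apply Finset.card_le_card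
        intro j hj
        rw [Finset.mem_Icc] at hj
        rw [Finset.mem_filter, Finset.mem_Icc]
        exact ⟨⟨hj.1, hj.2.trans h2⟩, (Nat.le_div_iff_mul_le hp).1 hj.2⟩
  calc 2 * ∑ i ∈ Finset.range (mN n), (2 * i - 1) / p
      ≤ 2 * ∑ i ∈ Finset.range (mN n), ∑ j ∈ J2, (if j * p ≤ 2 * i - 1 then 1 else 0) :=
        Nat.mul_le_mul_left 2 (Finset.sum_le_sum h1)
    _ = ∑ j ∈ J2, 2 * ∑ i ∈ Finset.range (mN n), (if j * p ≤ 2 * i - 1 then 1 else 0) := by
        rw [Finset.sum_comm, Finset.mul_sum]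
    _ ≤ ∑ j ∈ J2, (46 * n - j * p) := by
        apply Finset.sum_le_sum
        intro j hj
        rw [Finset.mem_Icc] at hj
        rw [← Finset.card_filter]
        have hjp : 1 ≤ j * p := Nat.mul_pos hj.1 hp
        have h4 : ((Finset.range (mN n)).filter (fun i => j * p ≤ 2 * i - 1)).card ≤
            (Finset.Ico ((j * p + 2) / 2) (mN n)).card := by
          apply Finset.card_le_card
          intro i hi
          rw [Finset.mem_filter, Finset.mem_range] at hi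
          rw [Finset.mem_Ico]
          generalize j * p = a at *
          omega
        rw [Nat.card_Ico] at h4
        generalize j * p = a at *
        omega

theorem fact2 : ∀ᶠ n : ℕ in atTop,
    ∑ p ∈ (Finset.range (n + 1)).filter (fun p : ℕ => p.Prime ∧ 100 * p ≤ n), ∑ i ∈ Finset.range (mN n),
      Real.log ((padicNorm p (((2 * i - 1).factorial : ℕ) : ℚ) ^ 2 : ℚ) : ℝ) ≤
    - 2 * ∑ i ∈ Finset.range (mN n), Real.log ((2 * i - 1).factorial : ℝ) +
      ∑ p ∈ PS (1 / 100) 46 n, (∑ j ∈ J2, tn (46 * n) j p) * Real.log p := by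
  classical
  filter_upwards [eventually_ge_atTop 460001] with n hn
  set S := (Finset.range (49 * n)).filter (fun p : ℕ => p.Prime) with hS
  set m := mN n with hm
  have hmN : m = 23 * (n - 1) := rfl
  -- the left side
  have hL : ∑ p ∈ (Finset.range (n + 1)).filter (fun p : ℕ => p.Prime ∧ 100 * p ≤ n), ∑ i ∈ Finset.range m,
      Real.log ((padicNorm p (((2 * i - 1).factorial : ℕ) : ℚ) ^ 2 : ℚ) : ℝ) =
      -2 * ∑ i ∈ Finset.range m, ∑ p ∈ S.filter (fun p => 100 * p ≤ n),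
        ((((2 * i - 1).factorial).factorization p : ℝ) * Real.log p) := by
    have : (Finset.range (n + 1)).filter (fun p : ℕ => p.Prime ∧ 100 * p ≤ n) =
        S.filter (fun p => 100 * p ≤ n) := by
      ext p
      simp only [hS, Finset.mem_filter, Finset.mem_range]
      constructor
      · rintro ⟨h1, h2, h3⟩
        exact ⟨⟨by omega, h2⟩, h3⟩
      · rintro ⟨⟨h1, h2⟩, h3⟩
        exact ⟨by omega, h2, h3⟩
    rw [this, Finset.sum_comm, Finset.mul_sum]
    refine Finset.sum_congr rfl fun i _ => ?_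
    rw [Finset.mul_sum]
    refine Finset.sum_congr rfl fun p hp => ?_
    have hpp : p.Prime := by
      have := (Finset.mem_filter.1 hp).1
      exact (Finset.mem_filter.1 this).2
    exact P46_norm p (2 * i - 1) hpp
  have hR : ∑ i ∈ Finset.range m, Real.log ((2 * i - 1).factorial : ℝ) =
      ∑ i ∈ Finset.range m, ∑ p ∈ S.filter (fun p => 100 * p ≤ n),
        ((((2 * i - 1).factorial).factorization p : ℝ) * Real.log p) +
      ∑ i ∈ Finset.range m, ∑ p ∈ S.filter (fun p => ¬ 100 * p ≤ n),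
        ((((2 * i - 1).factorial).factorization p : ℝ) * Real.log p) := by
    rw [← Finset.sum_add_distrib]
    refine Finset.sum_congr rfl fun i hi => ?_
    rw [Finset.sum_filter_add_sum_filter_not]
    exact P46_log_factorial _ _ (by rw [Finset.mem_range] at hi; omega)
  have hmain : 2 * ∑ i ∈ Finset.range m, ∑ p ∈ S.filter (fun p => ¬ 100 * p ≤ n),
        ((((2 * i - 1).factorial).factorization p : ℝ) * Real.log p) ≤
      ∑ p ∈ PS (1 / 100) 46 n, (∑ j ∈ J2, tn (46 * n) j p) * Real.log p := by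
    rw [Finset.sum_comm]
    have hPS : PS (1 / 100) 46 n = (S.filter (fun p => ¬ 100 * p ≤ n)).filter (fun p => p < 46 * n) := by
      ext p
      unfold PS
      simp only [hS, Finset.mem_filter, Finset.mem_range]
      constructor
      · rintro ⟨h1, h2, h3, h4⟩
        refine ⟨⟨⟨h1, h2⟩, ?_⟩, by exact_mod_cast h4⟩
        intro h5
        have h6 : (100 : ℝ) * p ≤ n := by exact_mod_cast h5
        linarith
      · rintro ⟨⟨⟨h1, h2⟩, h3⟩, h4⟩
        refine ⟨h1, h2, ?_, by exact_mod_cast h4⟩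
        have h6 : (n : ℝ) < 100 * p := by
          have : n < 100 * p := by omega
          exact_mod_cast this
        linarith
    rw [hPS, ← Finset.sum_filter_add_sum_filter_not (S.filter (fun p => ¬ 100 * p ≤ n))
      (fun p => p < 46 * n)]
    have hz : ∑ p ∈ (S.filter (fun p => ¬ 100 * p ≤ n)).filter (fun p => ¬ p < 46 * n),
        ∑ i ∈ Finset.range m, ((((2 * i - 1).factorial).factorization p : ℝ) * Real.log p) = 0 := by
      refine Finset.sum_eq_zero fun p hp => Finset.sum_eq_zero fun i hi => ?_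
      rw [Finset.mem_range] at hi
      have h1 := (Finset.mem_filter.1 hp).2
      have h2 : ((2 * i - 1).factorial).factorization p = 0 :=
        Nat.factorization_factorial_eq_zero_of_lt (by omega)
      rw [h2]; simp
    rw [hz, add_zero, Finset.mul_sum]
    apply Finset.sum_le_sum
    intro p hp
    have h1 := (Finset.mem_filter.1 hp).2
    have h2 := (Finset.mem_filter.1 (Finset.mem_filter.1 hp).1).2
    have h3 := (Finset.mem_filter.1 (Finset.mem_filter.1 (Finset.mem_filter.1 hp).1).1).2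
    have hlog : 0 ≤ Real.log p := Real.log_natCast_nonneg p
    rw [← Finset.sum_mul, ← mul_assoc]
    apply mul_le_mul_of_nonneg_right _ hlog
    have := Fact.mk h3
    have h4 : ∀ i ∈ Finset.range m,
        (((2 * i - 1).factorial).factorization p : ℝ) = (((2 * i - 1) / p : ℕ) : ℝ) := by
      intro i hi
      rw [Finset.mem_range] at hi
      have h5 : Nat.log p (2 * i - 1) < 2 := by
        apply Nat.log_lt_of_lt_pow' (by norm_num)
        have h9 : n + 1 ≤ 100 * p := by omega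
        have h10 : (n + 1) * (n + 1) ≤ (100 * p) * (100 * p) := Nat.mul_le_mul h9 h9
        have h11 : 460001 * n ≤ n * n := Nat.mul_le_mul_right n hn
        have h12 : 10000 * (46 * n) < 10000 * p ^ 2 := by nlinarith
        omega
      rw [Nat.factorization_def _ h3, padicValNat_factorial h5]
      have : Finset.Ico 1 2 = {1} := by decide
      rw [this]
      simp
    rw [Finset.sum_congr rfl h4]
    have h6 := count2 n p h3.pos (by omega)
    have h7 : (∑ j ∈ J2, tn (46 * n) j p) = ((∑ j ∈ J2, (46 * n - j * p) : ℕ) : ℝ) := by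
      rw [Nat.cast_sum]
      rfl
    rw [h7]
    have h8 : ((2 * ∑ i ∈ Finset.range (mN n), (2 * i - 1) / p : ℕ) : ℝ) ≤
        ((∑ j ∈ J2, (46 * n - j * p) : ℕ) : ℝ) := by exact_mod_cast h6
    rw [Nat.cast_mul, Nat.cast_sum] at h8
    exact_mod_cast h8
  rw [hL, hR]
  linarith


end

end Pool.Agent.Q203.ZV
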