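import Pool.Agent.Q203.ZV.Num
import Pool.Agent.Y801.Z5S.PS

/-!
# The local bounds and their sum
-/

open Polynomial Pool.Agent.H337R2 Pool.Agent.H336R2 Pool.Agent.H336R2.Z5 Pool.Agent.H336R2.Z5.P49 Filter Topology

namespace Pool.Agent.Q203.ZV

noncomputable section

set_option autoImplicit false

/-- the exponent -/
def EW2 (n p : ℕ) : ℝ := if p < 12 * n then EA2 n p else EB n p

/-- the bound of the local factor at `p` -/
def BB2 (K0 : ℝ) (n p : ℕ) : ℝ :=
  if n < 100 * p then (if p < 34 * n then (p : ℝ) ^ (EW2 n p + K0) else 1) else P49.Bf n p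

theorem P_unif2 : ∃ K0 : ℝ, 0 ≤ K0 ∧ ∀ n : ℕ, 500000 ≤ n → ∀ p : ℕ, p.Prime → ∀ u : ℚ,
    (padicNorm p u ≤ 1 ∨ (n < p ∧ p < 12 * n ∧ padicNorm p u ≤ (p : ℚ) ^ 5)) →
    ((padicNorm p (DET n u (mN n)) : ℚ) : ℝ) ≤ BB2 K0 n p := by
  obtain ⟨K1, hK1, h4⟩ := ZP.P4_padic
  obtain ⟨K2, h5⟩ := exp_A
  refine ⟨max K1 K2, hK1.trans (le_max_left _ _), fun n hn p hp u hu => ?_⟩
  have : Fact p.Prime := ⟨hp⟩
  have hp1 : (1 : ℝ) ≤ p := by exact_mod_cast hp.one_lt.le
  -- the medium primes
  have hmed : n < 100 * p → p < 12 * n → padicNorm p u ≤ (p : ℚ) ^ 5 →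
      ((padicNorm p (DET n u (mN n)) : ℚ) : ℝ) ≤ BB2 (max K1 K2) n p := by
    intro h100 hp12 hu5
    unfold BB2
    rw [if_pos h100, if_pos (by omega)]
    have hp2 : 48 * n < p ^ 2 := by nlinarith
    have h6 := Pool.Agent.Y801.Z5S.det_med5 (n := n) (p := p) (by omega) hp2 u hu5 (mN n)
      (2 * ((2 * n / p : ℕ) + 1 : ℤ) - vv n p)
    refine P4_to_rpow hp.one_lt.le h6 ?_
    have h7 := h5 n p hp (by omega) h100 hp12 hp2
    refine h7.trans ?_
    rw [EW2, if_pos hp12]
    have := le_max_right K1 K2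
    linarith
  rcases hu with hu | ⟨hnp, hp12, hu⟩
  · have hu5 : padicNorm p u ≤ (p : ℚ) ^ 5 := by
      refine hu.trans ?_
      have h8 : (1 : ℚ) ≤ p := by exact_mod_cast hp.one_lt.le
      exact one_le_pow₀ h8
    by_cases h100 : n < 100 * p
    · by_cases hp12 : p < 12 * n
      · exact hmed h100 hp12 hu5
      · have hd := Pool.Agent.Y801.Z5S.den_unit u hu
        have hz : padicNorm p (((u.den : ℚ)) ^ (mN n) * DET n u (mN n)) = padicNorm p (DET n u (mN n)) := by
          rw [padicNorm.mul]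
          have h6 : padicNorm p ((u.den : ℚ) ^ (mN n)) = 1 := by
            have h7 : ∀ k : ℕ, padicNorm p ((u.den : ℚ) ^ k) = 1 := by
              intro k
              induction k with
              | zero => simp
              | succ k ih => rw [pow_succ, padicNorm.mul, ih, hd, one_mul]
            exact h7 _
          rw [h6, one_mul]
        unfold BB2
        rw [if_pos h100]
        have h8 := h4 n (by omega) p hp (by omega) (by nlinarith) u.den u (Pool.Agent.Y801.Z5S.uint_den u)
        rw [hz] at h8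
        by_cases h34 : p < 34 * n
        · rw [if_pos h34] at h8 ⊢
          refine h8.trans ?_
          apply Real.rpow_le_rpow_of_exponent_le hp1
          rw [EW2, if_neg hp12, EW, if_neg hp12]
          have := le_max_left K1 K2
          linarith
        · rw [if_neg h34] at h8 ⊢
          exact h8
    · have hd := Pool.Agent.Y801.Z5S.den_unit u hu
      have hz : padicNorm p (((u.den : ℚ)) ^ (mN n) * DET n u (mN n)) = padicNorm p (DET n u (mN n)) := by
        rw [padicNorm.mul]
        have h6 : padicNorm p ((u.den : ℚ) ^ (mN n)) = 1 := by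
          have h7 : ∀ k : ℕ, padicNorm p ((u.den : ℚ) ^ k) = 1 := by
            intro k
            induction k with
            | zero => simp
            | succ k ih => rw [pow_succ, padicNorm.mul, ih, hd, one_mul]
          exact h7 _
        rw [h6, one_mul]
      unfold BB2
      rw [if_neg h100]
      have h8 := P49.norm_le_Bf P2_small_med P2_small_crude n p (by omega) hp u.den u
        (Pool.Agent.Y801.Z5S.uint_den u)
      rw [hz] at h8
      exact h8
  · exact hmed (by omega) hp12 hu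

lemma BB2_pos (K0 : ℝ) (n p : ℕ) (hp : p.Prime) : 0 < BB2 K0 n p := by
  unfold BB2
  have hp0 : (0 : ℝ) < p := by exact_mod_cast hp.pos
  split_ifs
  · positivity
  · exact one_pos
  · exact Pool.Agent.Y801.Z5S.Bf_pos n p hp

lemma EW_split2 (n : ℕ) (hn : 7 ≤ n) (K0 : ℝ) (hK0 : 0 ≤ K0) :
    ∑ p ∈ ((Finset.range (34 * n)).filter Nat.Prime).filter (fun p => ¬ 100 * p ≤ n), (EW2 n p + K0) * Real.log p ≤
      ∑ p ∈ PS (1 / 100) 12 n, EA2 n p * Real.log p + ∑ p ∈ PS 12 34 n, EB n p * Real.log p +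
      K0 * (Real.log 4 * (34 * n)) := by
  classical
  have hn0 : (0 : ℝ) < n := by exact_mod_cast (by omega : 0 < n)
  simp only [add_mul, Finset.sum_add_distrib]
  apply add_le_add
  · apply le_of_eq
    set T := ((Finset.range (34 * n)).filter Nat.Prime).filter (fun p => ¬ 100 * p ≤ n) with hT
    have e1 : PS (1 / 100) 12 n = T.filter (fun p => p < 12 * n) := by
      ext p
      unfold PS
      rw [hT]
      simp only [Finset.mem_filter, Finset.mem_range]
      constructor
      · rintro ⟨h1, h2, h3, h4⟩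
        have h5 : n < 100 * p := by
          have : (n : ℝ) < 100 * p := by linarith
          exact_mod_cast this
        have h6 : p < 12 * n := by exact_mod_cast h4
        exact ⟨⟨⟨by omega, h2⟩, by omega⟩, h6⟩
      · rintro ⟨⟨⟨h1, h2⟩, h3⟩, h4⟩
        refine ⟨by omega, h2, ?_, by exact_mod_cast h4⟩
        have : (n : ℝ) < 100 * p := by exact_mod_cast (by omega : n < 100 * p)
        linarith
    have e2 : PS 12 34 n = T.filter (fun p => ¬ p < 12 * n) := by
      ext p
      unfold PS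
      rw [hT]
      simp only [Finset.mem_filter, Finset.mem_range]
      constructor
      · rintro ⟨h1, h2, h3, h4⟩
        have h5 : 12 * n < p := by exact_mod_cast h3
        have h6 : p < 34 * n := by exact_mod_cast h4
        exact ⟨⟨⟨by omega, h2⟩, by omega⟩, by omega⟩
      · rintro ⟨⟨⟨h1, h2⟩, h3⟩, h4⟩
        refine ⟨by omega, h2, ?_, by exact_mod_cast h1⟩
        have h6 : 12 * n ≠ p := by
          rintro rfl
          exact Nat.not_prime_mul (by norm_num) (by omega) h2
        exact_mod_cast (by omega : 12 * n < p)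
    rw [e1, e2, ← Finset.sum_filter_add_sum_filter_not T (fun p => p < 12 * n)]
    congr 1
    · apply Finset.sum_congr rfl
      intro p hp
      rw [Finset.mem_filter] at hp
      unfold EW2
      rw [if_pos hp.2]
    · apply Finset.sum_congr rfl
      intro p hp
      rw [Finset.mem_filter] at hp
      unfold EW2
      rw [if_neg hp.2]
  · rw [← Finset.mul_sum]
    apply mul_le_mul_of_nonneg_left _ hK0
    refine le_trans ?_ (Chebyshev.theta_le_log4_mul_x (x := 34 * n) (by positivity))
    unfold Chebyshev.theta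
    apply Finset.sum_le_sum_of_subset_of_nonneg
    · intro p hp
      rw [Finset.mem_filter, Finset.mem_filter, Finset.mem_range] at hp
      rw [Finset.mem_filter, Finset.mem_Ioc]
      refine ⟨⟨hp.1.2.pos, ?_⟩, hp.1.2⟩
      rw [Nat.le_floor_iff (by positivity)]
      have : ((p : ℕ) : ℝ) ≤ ((34 * n : ℕ) : ℝ) := by exact_mod_cast hp.1.1.le
      push_cast at this
      exact this
    · intro p hp _
      exact Real.log_natCast_nonneg p

/-- the sum over all primes up to `48 n` -/
theorem P_sum2 (K0 : ℝ) (hK0 : 0 ≤ K0) :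
    ∀ ε : ℝ, 0 < ε → ∀ᶠ n : ℕ in atTop,
    ∑ p ∈ (Finset.range (48 * n + 1)).filter Nat.Prime, Real.log (BB2 K0 n p) ≤
      -(1058 * (n : ℝ) ^ 2 * Real.log n) - (63188 / 100 - ε) * (n : ℝ) ^ 2 := by
  intro ε hε
  have hnumr : (LA2 : ℝ) + LB + LU2 ≤ 18304400 / 10000 := by
    have h := (Rat.cast_le (K := ℝ)).2 numeric2
    push_cast at h
    exact h
  have hε' : 0 < ε / 10 := by positivity
  have ev9 : ∀ᶠ n : ℕ in atTop, K0 * (Real.log 4 * 34) ≤ ε / 10 * n := by
    have := (tendsto_natCast_atTop_atTop (R := ℝ)).const_mul_atTop hε'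
    exact this.eventually_ge_atTop _
  filter_upwards [ev_of_tendsto lim_A2 (ε / 10) hε', ev_of_tendsto P5_B (ε / 10) hε', ev_of_tendsto lim_U2 (ε / 10) hε',
    small2 60 (by norm_num) (ε / 10) hε', fact2, P5_superfac (ε / 10) hε', ev9, eventually_ge_atTop 500000] with
    n g2 g3 g5 g6 g7 g8 g9 hn
  have hn7 : 7 ≤ n := by omega
  have hn0 : (0 : ℝ) < n := by exact_mod_cast (by omega : 0 < n)
  set S := (Finset.range (48 * n + 1)).filter Nat.Prime with hS
  rw [← Finset.sum_filter_add_sum_filter_not S (fun p => 100 * p ≤ n)]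
  -- small primes
  have hsmall : ∑ p ∈ S.filter (fun p => 100 * p ≤ n), Real.log (BB2 K0 n p) ≤
      23 * (n : ℝ) * (∑ p ∈ (Finset.range (n + 1)).filter (fun p : ℕ => p.Prime ∧ p ^ 2 ≤ 48 * n),
        60 * Real.log (48 * n + 1) +
      ∑ p ∈ (Finset.range (n + 1)).filter (fun p : ℕ => p.Prime ∧ 100 * p ≤ n), 6 * Real.log p) +
      ∑ p ∈ (Finset.range (n + 1)).filter (fun p : ℕ => p.Prime ∧ 100 * p ≤ n), ∑ i ∈ Finset.range (mN n),
      Real.log ((padicNorm p (((2 * i - 1).factorial : ℕ) : ℚ) ^ 2 : ℚ) : ℝ) := by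
    have e1 : S.filter (fun p => 100 * p ≤ n) = (Finset.range (n + 1)).filter (fun p : ℕ => p.Prime ∧ 100 * p ≤ n) := by
      ext p
      rw [hS]
      simp only [Finset.mem_filter, Finset.mem_range]
      constructor
      · rintro ⟨⟨h1, h2⟩, h3⟩; exact ⟨by omega, h2, h3⟩
      · rintro ⟨h1, h2, h3⟩; exact ⟨⟨by omega, h2⟩, h3⟩
    rw [e1]
    calc _ ≤ ∑ p ∈ (Finset.range (n + 1)).filter (fun p : ℕ => p.Prime ∧ 100 * p ≤ n),
          (23 * (n : ℝ) * ((if p ^ 2 ≤ 48 * n then 60 * Real.log (48 * n + 1) else 0) + 6 * Real.log p) +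
          ∑ i ∈ Finset.range (mN n), Real.log ((padicNorm p (((2 * i - 1).factorial : ℕ) : ℚ) ^ 2 : ℚ) : ℝ)) := by
          apply Finset.sum_le_sum
          intro p hp
          rw [Finset.mem_filter] at hp
          have e2 : BB2 K0 n p = Bf n p := by
            unfold BB2
            rw [if_neg (by omega)]
          rw [e2]
          exact log_Bf_small n p hp.2.1
      _ ≤ _ := by
          rw [Finset.sum_add_distrib, ← Finset.mul_sum, Finset.sum_add_distrib]
          apply add_le_add_left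
          apply mul_le_mul_of_nonneg_left _ (by positivity)
          apply add_le_add_left
          rw [← Finset.sum_filter]
          apply Finset.sum_le_sum_of_subset_of_nonneg
          · intro p hp
            simp only [Finset.mem_filter, Finset.mem_range] at hp ⊢
            exact ⟨hp.1.1, hp.1.2.1, hp.2⟩
          · intro p _ _
            have : 0 ≤ Real.log (48 * (n : ℝ) + 1) := Real.log_nonneg (by linarith)
            positivity
  -- large primes
  have hlarge : ∑ p ∈ S.filter (fun p => ¬ 100 * p ≤ n), Real.log (BB2 K0 n p) ≤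
      ∑ p ∈ PS (1 / 100) 12 n, EA2 n p * Real.log p + ∑ p ∈ PS 12 34 n, EB n p * Real.log p +
      K0 * (Real.log 4 * (34 * n)) := by
    refine le_trans ?_ (EW_split2 n hn7 K0 hK0)
    have e1 : ((Finset.range (34 * n)).filter Nat.Prime).filter (fun p => ¬ 100 * p ≤ n) =
        (S.filter (fun p => ¬ 100 * p ≤ n)).filter (fun p => p < 34 * n) := by
      ext p
      rw [hS]
      simp only [Finset.mem_filter, Finset.mem_range]
      constructor
      · rintro ⟨⟨h1, h2⟩, h3⟩; exact ⟨⟨⟨by omega, h2⟩, h3⟩, h1⟩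
      · rintro ⟨⟨⟨h1, h2⟩, h3⟩, h4⟩; exact ⟨⟨h4, h2⟩, h3⟩
    rw [e1, ← Finset.sum_filter_add_sum_filter_not (S.filter (fun p => ¬ 100 * p ≤ n)) (fun p => p < 34 * n)]
    have hlo : ∑ p ∈ (S.filter (fun p => ¬ 100 * p ≤ n)).filter (fun p => p < 34 * n), Real.log (BB2 K0 n p) ≤
        ∑ p ∈ (S.filter (fun p => ¬ 100 * p ≤ n)).filter (fun p => p < 34 * n), (EW2 n p + K0) * Real.log p := by
      apply Finset.sum_le_sum
      intro p hp
      rw [hS, Finset.mem_filter, Finset.mem_filter, Finset.mem_filter] at hp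
      obtain ⟨⟨⟨_, h2⟩, h3⟩, h5⟩ := hp
      have hp0 : (0 : ℝ) < p := by exact_mod_cast h2.pos
      unfold BB2
      rw [if_pos (by omega), if_pos h5, Real.log_rpow hp0]
    have hhi : ∑ p ∈ (S.filter (fun p => ¬ 100 * p ≤ n)).filter (fun p => ¬ p < 34 * n), Real.log (BB2 K0 n p) ≤ 0 := by
      apply Finset.sum_nonpos
      intro p hp
      rw [hS, Finset.mem_filter, Finset.mem_filter, Finset.mem_filter] at hp
      obtain ⟨⟨⟨_, h2⟩, h3⟩, h5⟩ := hp
      unfold BB2
      rw [if_pos (by omega), if_neg h5, Real.log_one]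
    linarith
  have hfin : K0 * (Real.log 4 * (34 * n)) ≤ ε / 10 * (n : ℝ) ^ 2 := by
    have := mul_le_mul_of_nonneg_right g9 hn0.le
    nlinarith
  have hn2 : (0 : ℝ) < (n : ℝ) ^ 2 := by positivity
  have hlog : (40507024 / 10000 : ℝ) ≤ 1058 * Real.log 46 := by
    have := Pool.Agent.Y801.Z5S.log46
    norm_num at this ⊢
    linarith
  have hcon : ((LA2 : ℝ) + ε / 10 + (LB + ε / 10) + (LU2 + ε / 10) + (69 / 50 + ε / 10) -
      (1058 * Real.log 46 - 1587 - ε / 10) + ε / 10) * (n : ℝ) ^ 2 ≤ -(63188 / 100 - ε) * (n : ℝ) ^ 2 := by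
    apply mul_le_mul_of_nonneg_right _ hn2.le
    linarith
  linarith

end

end Pool.Agent.Q203.ZV
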